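import Pool.Agent.H26.LdimB

set_option autoImplicit false

open Pool.Agent.H26.Ldim in
theorem Pool.Agent.Results.MP_33e188_co.Exact.result (w : ℕ) (hw : 0 < w) :
    IsGreatest {d : ℕ∞ | ∃ (P : Type) (_ : Finite P) (_ : PartialOrder P),
      width P = w ∧ ldim P = d} (w : ℕ∞) := by
  refine ⟨?_, ?_⟩
  · by_cases h : w = 1
    · subst h
      exact ⟨Fin 2, inferInstance, inferInstance, lower_one.1,
        le_antisymm (upper 1 hw _ lower_one.1.le) lower_one.2⟩
    · obtain ⟨δ, h1, h2⟩ := exists_delta (Fin w × Fin w)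
      let D : Dat w := ⟨δ, h1, h2⟩
      obtain ⟨R, hR⟩ := lower D (by omega)
      exact ⟨Pt D R, inferInstance, inferInstance, width_Pt D R,
        le_antisymm (upper w hw _ (width_Pt D R).le) hR⟩
  · rintro d ⟨P, _, _, h, rfl⟩
    exact upper w hw P h.le
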